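import Pool.Agent.Y516.CP.C1

set_option autoImplicit false

open Metric Set Filter Topology
open scoped ENNReal ContDiff

namespace Pool.Agent.Results.MP_cf1990_gt.BoundedOpenSets

/-- `R^{2n}` with its Euclidean norm; the coordinates of `z` are `x_j = z (j, 0)` and
`y_j = z (j, 1)`, for `j : Fin n`. -/
abbrev E (n : ℕ) : Type := EuclideanSpace ℝ (Fin n × Fin 2)

/-- The standard symplectic form `ω₀ = ∑ dx_j ∧ dy_j` of `R^{2n}`. -/
def omega {n : ℕ} (u v : E n) : ℝ :=
  ∑ j : Fin n, (u (j, 0) * v (j, 1) - u (j, 1) * v (j, 0))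

/-- `ψ` is a symplectomorphism of `R^{2n}`: a smooth diffeomorphism of `R^{2n}` onto itself
whose derivative at every point preserves `ω₀`. -/
def IsSymplecto {n : ℕ} (ψ : E n ≃ E n) : Prop :=
  ContDiff ℝ ∞ ψ ∧ ContDiff ℝ ∞ ψ.symm ∧
    ∀ x u v : E n, omega (fderiv ℝ ψ x u) (fderiv ℝ ψ x v) = omega u v

/-- The closed symplectic cylinder `Z^{2n}(r) = B²(r) × R^{2n-2}`. -/
def cyl {n : ℕ} (hn : 0 < n) (r : ℝ) : Set (E n) :=
  {z | z (⟨0, hn⟩, 0) ^ 2 + z (⟨0, hn⟩, 1) ^ 2 ≤ r ^ 2}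

/-- `c` is a normalised symplectic capacity on `R^{2n}` (defined on all subsets). -/
structure IsNormalisedCapacity {n : ℕ} (hn : 0 < n) (c : Set (E n) → ℝ≥0∞) : Prop where
  /-- monotonicity under symplectomorphisms of `R^{2n}` -/
  monotone : ∀ A B : Set (E n), (∃ ψ : E n ≃ E n, IsSymplecto ψ ∧ ψ '' A ⊆ B) → c A ≤ c B
  /-- conformality -/
  conformal : ∀ (s : ℝ) (A : Set (E n)), s ≠ 0 →
    c ((fun z => s • z) '' A) = ENNReal.ofReal (s ^ 2) * c A
  /-- normalisation on the closed Euclidean balls -/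
  ball : ∀ r : ℝ, 0 < r → c (closedBall 0 r) = ENNReal.ofReal (Real.pi * r ^ 2)
  /-- normalisation on the closed symplectic cylinders -/
  cylinder : ∀ r : ℝ, 0 < r → c (cyl hn r) = ENNReal.ofReal (Real.pi * r ^ 2)

/-- The homeomorphism `φ` preserves the `c`-capacity of small open sets: every point has a
neighbourhood `U` such that `c (φ V) = c V` for every open `V ⊆ U`. -/
def PreservesSmall {n : ℕ} (c : Set (E n) → ℝ≥0∞) (φ : E n ≃ₜ E n) : Prop :=
  ∀ x : E n, ∃ U ∈ 𝓝 x, ∀ V : Set (E n), V ⊆ U → IsOpen V → c (φ '' V) = c V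

/-- `φ` is a `C¹` diffeomorphism whose derivative preserves `ω₀` at every point. -/
def IsC1Symplectic {n : ℕ} (φ : E n ≃ₜ E n) : Prop :=
  ContDiff ℝ 1 φ ∧ ContDiff ℝ 1 φ.symm ∧
    ∀ x u v : E n, omega (fderiv ℝ φ x u) (fderiv ℝ φ x v) = omega u v

/-- `φ` and `φ⁻¹` are uniform limits of symplectomorphisms `ψ` and of their inverses. -/
def IsUniformLimit {n : ℕ} (φ : E n ≃ₜ E n) : Prop :=
  ∀ ε : ℝ, 0 < ε → ∃ ψ : E n ≃ E n, IsSymplecto ψ ∧
    ∀ z, dist (ψ z) (φ z) ≤ ε ∧ dist (ψ.symm z) (φ.symm z) ≤ ε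

/-- `φ` preserves the `c`-capacity of every open set contained in a closed ball of radius less
than `1` (with any centre). -/
def PreservesBelowOne {n : ℕ} (c : Set (E n) → ℝ≥0∞) (φ : E n ≃ₜ E n) : Prop :=
  ∀ (x : E n) (R : ℝ), R < 1 → ∀ O : Set (E n), IsOpen O → O ⊆ closedBall x R →
    c (φ '' O) = c O

/-- `φ` is the identity on the set of all `z` with `‖z‖ ≥ 1/2`. -/
def IsIdOffBall {n : ℕ} (φ : E n ≃ₜ E n) : Prop := ∀ z, 1 / 2 ≤ ‖z‖ → φ z = z

open Pool.Agent.Y516.CP in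
/-- In every dimension in which there is a normalised capacity at all (so for `n = 1`), there are
a normalised capacity `c` and a `C¹` diffeomorphism `φ` with `φ^* ω₀ = ω₀`, equal to the identity
off a ball and a uniform limit of symplectomorphisms, which preserves the `c`-capacity of every
open set contained in a ball of radius less than `1`, but not the `c`-capacity of a certain open
subset of the ball of radius `1`. -/
theorem result (n : ℕ) (hn : 0 < n) (hex : n = 1 ∨ ∃ c₀, IsNormalisedCapacity hn c₀) :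
    ∃ (c : Set (E n) → ℝ≥0∞) (φ : E n ≃ₜ E n) (V : Set (E n)),
      IsNormalisedCapacity hn c ∧ IsC1Symplectic φ ∧ IsIdOffBall φ ∧ IsUniformLimit φ ∧
      PreservesBelowOne c φ ∧ PreservesSmall c φ ∧
      IsOpen V ∧ V ⊆ ball 0 1 ∧ c (φ '' V) < c V := by
  have hNS : MP_cf1990_gt.EveryDim.NS hn := by
    rcases hex with h | ⟨c₀, h⟩
    · subst h; exact MP_cf1990_gt.EveryDim.NS_one
    · exact MP_cf1990_gt.EveryDim.NS_of_cap (c₀ := c₀) hn
        ⟨h.monotone, h.conformal, h.ball, h.cylinder⟩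
  obtain ⟨D, hD, hdense⟩ := exists_dir hn
  have hN := cp_normalised hn hNS D
  have hsmall : ∀ (x : E n) (R : ℝ), R < 1 → ∀ O : Set (E n), IsOpen O → O ⊆ closedBall x R →
      cp D ((phi : E n ≃ₜ E n) '' O) = cp D O := by
    intro x R hR O hO hOR
    refine cp_small hn D (R := max R (1 / 2)) (by positivity) (max_lt hR (by norm_num)) hO
      (hOR.trans (closedBall_subset_closedBall (le_max_left _ _)))
  refine ⟨cp D, phi, V D, ⟨hN.monotone, hN.conformal, hN.ball, hN.cylinder⟩,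
    ⟨tw_pr_contDiff 1, ?_, ?_⟩, fun z hz => phi_eq_self hz, fun ε hε => phi_approx hε, hsmall, ?_,
    V_open hD, V_bdd D, cp_large hn hD hdense⟩
  · have h1 : ((phi : E n ≃ₜ E n).symm : E n → E n) = tw (pr (-1) 1) := by
      ext1 z; exact phi_symm z
    rw [h1]; exact tw_pr_contDiff (-1)
  · intro x u v
    have h1 : fderiv ℝ (phi : E n ≃ₜ E n) x = _ := (tw_pr_hasFDerivAt 1 x).fderiv
    rw [h1]
    exact omega_dtw _ _ _ _ _
  · intro x
    refine ⟨closedBall x (1 / 2), closedBall_mem_nhds x (by norm_num), fun O hO hOo => ?_⟩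
    exact hsmall x (1 / 2) (by norm_num) O hOo hO

end Pool.Agent.Results.MP_cf1990_gt.BoundedOpenSets
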